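import Pool.Agent.H798.BV.Stm3

set_option autoImplicit false

/-!
# Task B3-PTQ (helper798): one variable inequalities for `Θ(r) = (r^p - 1) + (p/s) (r^(-s) - 1)`

With `t = log r` and `g x = exp x - 1 - x` one has `Θ = g (p t) + (p/s) g (-s t)`. The lemmas on `g`
are those of `Pool/Agent/H390/BV/Ptw.lean` (helper390, the case `s = 2`).
-/

namespace Pool.Agent.H457.BV

open Pool.Agent.H798.BV Real

/-- `g x = exp x - 1 - x` -/
noncomputable def g (x : ℝ) : ℝ := exp x - 1 - x

lemma g_nonneg (x : ℝ) : 0 ≤ g x := by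
  unfold g
  have := add_one_le_exp x
  linarith

lemma g_mul_le {s : ℝ} (h0 : 0 ≤ s) (h1 : s ≤ 1) (x : ℝ) : g (s * x) ≤ g x := by
  have h2 := convexOn_exp.2 (Set.mem_univ x) (Set.mem_univ (0 : ℝ)) h0 (sub_nonneg.2 h1)
    (by ring : s + (1 - s) = 1)
  simp only [smul_eq_mul, mul_zero, add_zero, exp_zero, mul_one] at h2
  have h3 : g (s * x) ≤ s * g x := by
    unfold g
    nlinarith
  refine h3.trans ?_
  have := g_nonneg x
  nlinarith

lemma g_ge_sq {x : ℝ} (h : 0 ≤ x) : x ^ 2 / 2 ≤ g x := by
  unfold g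
  have := quadratic_le_exp_of_nonneg h
  linarith

lemma g_ge_cub {x : ℝ} (h : |x| ≤ 1) : x ^ 2 / 2 - 2 / 9 * |x| ^ 3 ≤ g x := by
  have h1 := Real.exp_bound h (n := 3) (by norm_num)
  rw [Finset.sum_range_succ, Finset.sum_range_succ, Finset.sum_range_succ, Finset.sum_range_zero] at h1
  have h2 := (abs_le.1 h1).1
  norm_num [Nat.factorial] at h2
  unfold g
  linarith

theorem t_PTQ : S_PTQ := by
  intro p s hp1 hs1 η hη
  have hp0 : 0 < p := by linarith
  have hs0 : 0 < s := by linarith
  set a : ℝ := 2 * p / (p + s) with ha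
  have ha0 : 0 < a := by positivity
  set ρ : ℝ := η / ((a + η) * (p + s)) with hρ
  have hρ0 : 0 < ρ := by positivity
  have hρ1 : (a + η) * ((p + s) * ρ) = η := by
    rw [hρ]
    field_simp
  have hρ2 : (p + s) * ρ ≤ 1 := by
    have h1 : 0 ≤ (p + s) * ρ := by positivity
    by_contra h2
    push Not at h2
    have h3 : a + η < (a + η) * ((p + s) * ρ) := by
      have : 0 < a + η := by positivity
      nlinarith
    linarith
  have hK : 0 < 2 / ρ := by positivity
  set K : ℝ := 2 / ρ + 10 * (p + s) + 60 with hKdef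
  have hK0 : 0 < K := by positivity
  refine ⟨K, hK0, fun r hr => ?_⟩
  obtain ⟨Θ, hΘ⟩ : ∃ Θ, Θ = Th p s r := ⟨_, rfl⟩
  rw [← hΘ]
  set t : ℝ := Real.log r with ht
  have e1 : ∀ q : ℝ, r ^ q = exp (q * t) := fun q => by
    rw [rpow_def_of_pos hr, mul_comm]
  have e2 : r⁻¹ ^ s = exp (-s * t) := by
    rw [rpow_def_of_pos (inv_pos.2 hr), Real.log_inv, ← ht]
    congr 1
    ring
  have e3 : r⁻¹ = exp (-t) := by
    rw [Real.exp_neg, ht, Real.exp_log hr]
  have e4 : r = exp t := by
    rw [ht, Real.exp_log hr]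
  have hT : Θ = g (p * t) + p / s * g (-s * t) := by
    rw [hΘ]
    unfold Th
    rw [e1, e2]
    unfold g
    field_simp
    ring
  have g1 := g_nonneg (p * t)
  have g2 := g_nonneg (-s * t)
  have hps : 0 < p / s := by positivity
  have hT0 : 0 ≤ Θ := by rw [hT]; positivity
  have hT1 : g (p * t) ≤ Θ := by
    rw [hT]
    have : 0 ≤ p / s * g (-s * t) := by positivity
    linarith
  have hT2 : g (-s * t) ≤ s * Θ := by
    have h1 : p / s * g (-s * t) ≤ Θ := by rw [hT]; linarith
    have h2 : g (-s * t) = s / p * (p / s * g (-s * t)) := by field_simp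
    have h3 : s / p ≤ s := by
      rw [div_le_iff₀ hp0]
      nlinarith
    rw [h2]
    calc s / p * (p / s * g (-s * t)) ≤ s / p * Θ := mul_le_mul_of_nonneg_left h1 (by positivity)
      _ ≤ s * Θ := mul_le_mul_of_nonneg_right h3 hT0
  -- `Θ ≥ (p / 2) t²`
  have hT3 : p * t ^ 2 ≤ 2 * Θ := by
    rcases le_total 0 t with h | h
    · have h1 := g_ge_sq (x := p * t) (by positivity)
      have h2 : p * t ^ 2 ≤ (p * t) ^ 2 := by
        have : 0 ≤ t ^ 2 := sq_nonneg t
        nlinarith
      linarith
    · have h1 := g_ge_sq (x := -s * t) (by nlinarith)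
      have h2 : p / s * ((-s * t) ^ 2 / 2) ≤ p / s * g (-s * t) :=
        mul_le_mul_of_nonneg_left h1 (by positivity)
      have h3 : p / s * ((-s * t) ^ 2 / 2) = s * (p * t ^ 2) / 2 := by field_simp
      have h4 : p * t ^ 2 ≤ s * (p * t ^ 2) := by
        have : 0 ≤ p * t ^ 2 := by positivity
        nlinarith
      rw [hT]
      linarith
  obtain ⟨S, hS⟩ : ∃ S, S = √Θ := ⟨_, rfl⟩
  have hS0 : 0 ≤ S := by rw [hS]; exact Real.sqrt_nonneg _
  have hSS : S ^ 2 = Θ := by rw [hS, Real.sq_sqrt hT0]
  have hsq : |t| ≤ 2 * S := by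
    refine abs_le_of_sq_le_sq ?_ (by positivity)
    nlinarith [sq_nonneg t]
  have htn := abs_nonneg t
  have gp : ∀ q : ℝ, 0 ≤ q → q ≤ p → g (q * t) ≤ Θ := by
    intro q h0 h1
    have h2 := g_mul_le (s := q / p) (by positivity) ((div_le_one hp0).2 h1) (p * t)
    have h3 : q / p * (p * t) = q * t := by field_simp
    rw [h3] at h2
    exact h2.trans hT1
  have gm : ∀ q : ℝ, 0 ≤ q → q ≤ s → g (-q * t) ≤ s * Θ := by
    intro q h0 h1
    have h2 := g_mul_le (s := q / s) (by positivity) ((div_le_one hs0).2 h1) (-s * t)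
    have h3 : q / s * (-s * t) = -q * t := by field_simp
    rw [h3] at h2
    exact h2.trans hT2
  have ab : ∀ x : ℝ, exp x = 1 + x + g x := fun x => by unfold g; ring
  have hsT : 0 ≤ s * Θ := by positivity
  rw [← hS]
  refine ⟨hT0, ?_, ?_, ?_, ?_, ?_⟩
  · intro hr2
    have hl2 : (1 : ℝ) / 2 ≤ Real.log 2 := by
      have := Real.log_two_gt_d9
      linarith
    have ht2 : 1 / 2 ≤ |t| := by
      rcases hr2 with h | h
      · have h1 : t ≤ -Real.log 2 := by
          have : Real.log r ≤ Real.log (1 / 2) := Real.log_le_log hr h.le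
          rw [one_div, Real.log_inv] at this
          exact this
        rw [abs_of_nonpos (by linarith)]
        linarith
      · have h1 : Real.log 2 ≤ t := Real.log_le_log (by norm_num) h.le
        rw [abs_of_nonneg (by linarith)]
        linarith
    have h1 : |t| ^ 2 ≤ 2 * Θ := by
      rw [sq_abs]
      nlinarith [sq_nonneg t]
    have h2 : |t| ≤ 4 * Θ := by nlinarith
    have h3 : 1 ≤ 8 * Θ := by linarith
    have h4 : r ^ p ≤ 1 + p * |t| + Θ := by
      rw [e1, ab]
      have : p * t ≤ p * |t| := mul_le_mul_of_nonneg_left (le_abs_self t) hp0.le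
      linarith
    have h5 : r⁻¹ ^ s ≤ 1 + s * |t| + s * Θ := by
      rw [e2, ab]
      have : -s * t ≤ s * |t| := by
        have := mul_le_mul_of_nonneg_left (neg_abs_le t) hs0.le
        linarith
      linarith
    have h6 : p * |t| ≤ p * (4 * Θ) := mul_le_mul_of_nonneg_left h2 hp0.le
    have h7 : s * |t| ≤ s * (4 * Θ) := mul_le_mul_of_nonneg_left h2 hs0.le
    have h8 : K * Θ = 2 / ρ * Θ + 10 * (p * Θ) + 10 * (s * Θ) + 60 * Θ := by
      rw [hKdef]
      ring
    have h9 : 0 ≤ 2 / ρ * Θ := by positivity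
    have h10 : 0 ≤ p * Θ := by positivity
    rw [h8]
    linarith
  · intro _
    have h1 : g ((p - 2) * t) ≤ (1 + s) * Θ := by
      rcases le_total 2 p with h | h
      · have := gp (p - 2) (by linarith) (by linarith)
        linarith
      · have h2 := gm (2 - p) (by linarith) (by linarith)
        have h3 : -(2 - p) * t = (p - 2) * t := by ring
        rw [h3] at h2
        linarith
    have h2 := g_nonneg ((p - 2) * t)
    rw [e1, ab]
    have h5 : 1 + (p - 2) * t + g ((p - 2) * t) - 1 = (p - 2) * t + g ((p - 2) * t) := by ring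
    rw [h5]
    have h6 : |(p - 2) * t| ≤ (p + 2) * (2 * S) := by
      rw [abs_mul]
      refine mul_le_mul ?_ hsq htn (by positivity)
      rw [abs_le]
      constructor <;> linarith
    have h7 : |g ((p - 2) * t)| ≤ (1 + s) * Θ := by
      rw [abs_of_nonneg h2]
      exact h1
    refine (abs_add_le _ _).trans ((add_le_add h6 h7).trans ?_)
    have h8 : K * (Θ + S) = 2 / ρ * (Θ + S) + 10 * (p * Θ) + 10 * (s * Θ) + 60 * Θ
        + 10 * (p * S) + 10 * (s * S) + 60 * S := by
      rw [hKdef]
      ring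
    have h9 : 0 ≤ 2 / ρ * (Θ + S) := by positivity
    have h10 : 0 ≤ p * Θ := by positivity
    have h11 : 0 ≤ p * S := by positivity
    have h12 : 0 ≤ s * S := by positivity
    rw [h8]
    linarith
  · intro hr2
    have hl2 : Real.log 2 ≤ 1 := by
      have := Real.log_two_lt_d9
      linarith
    have e5 : (r ^ 2)⁻¹ = exp (-2 * t) := by
      rw [e4, ← Real.exp_nat_mul, ← Real.exp_neg]
      congr 1
      push_cast
      ring
    have h1 : |exp (-2 * t) - 1| ≤ 8 * |t| := by
      rcases le_total 0 t with h | h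
      · have h2 := add_one_le_exp (-2 * t)
        have h3 : exp (-2 * t) ≤ 1 := by
          rw [Real.exp_le_one_iff]
          linarith
        rw [abs_of_nonpos (by linarith), abs_of_nonneg h]
        linarith
      · have h2 : (r ^ 2)⁻¹ ≤ 4 := by
          rw [inv_le_comm₀ (by positivity) (by norm_num)]
          nlinarith
        rw [e5] at h2
        have h3 : 1 ≤ exp (-2 * t) := by
          rw [Real.one_le_exp_iff]
          linarith
        have h4 : exp (-2 * t) - 1 ≤ (-2 * t) * exp (-2 * t) := by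
          have h5 := add_one_le_exp (2 * t)
          have h6 : exp (2 * t) * exp (-2 * t) = 1 := by
            rw [← Real.exp_add]
            ring_nf
            exact Real.exp_zero
          have h7 := mul_le_mul_of_nonneg_right h5 (Real.exp_pos (-2 * t)).le
          rw [h6] at h7
          linarith
        rw [abs_of_nonneg (by linarith), abs_of_nonpos h]
        nlinarith
    rw [e5]
    refine h1.trans ?_
    have h8 : K * (Θ + S) = 2 / ρ * (Θ + S) + 10 * (p * Θ) + 10 * (s * Θ) + 60 * Θ
        + 10 * (p * S) + 10 * (s * S) + 60 * S := by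
      rw [hKdef]
      ring
    have h9 : 0 ≤ 2 / ρ * (Θ + S) := by positivity
    have h10 : 0 ≤ p * Θ := by positivity
    have h11 : 0 ≤ p * S := by positivity
    have h12 : 0 ≤ s * S := by positivity
    rw [h8]
    linarith
  · have h1 := gp 1 (by norm_num) hp1.le
    rw [one_mul] at h1
    have h2 := g_nonneg t
    have h3 : r - 1 = t + g t := by
      rw [e4, ab]
      ring
    rw [h3]
    have h7 : |g t| ≤ Θ := by
      rw [abs_of_nonneg h2]
      exact h1
    refine (abs_add_le _ _).trans ((add_le_add hsq h7).trans ?_)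
    have h8 : K * (Θ + S) = 2 / ρ * (Θ + S) + 10 * (p * Θ) + 10 * (s * Θ) + 60 * Θ
        + 10 * (p * S) + 10 * (s * S) + 60 * S := by
      rw [hKdef]
      ring
    have h9 : 0 ≤ 2 / ρ * (Θ + S) := by positivity
    have h10 : 0 ≤ p * Θ := by positivity
    have h11 : 0 ≤ p * S := by positivity
    have h12 : 0 ≤ s * S := by positivity
    rw [h8]
    linarith
  · rw [e1, e3, ab ((p - 1) * t), ab (-t)]
    have h1 := gp (p - 1) (by linarith) (by linarith)
    have h0 := gm 1 (by norm_num) hs1.le
    have h0' : -(1 : ℝ) * t = -t := by ring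
    rw [h0'] at h0
    have h2 := g_nonneg ((p - 1) * t)
    have h3 := g_nonneg (-t)
    have h4 : |1 + (p - 1) * t + g ((p - 1) * t) - (1 + -t + g (-t))| ≤ p * |t| + (1 + s) * Θ := by
      have h5 : 1 + (p - 1) * t + g ((p - 1) * t) - (1 + -t + g (-t)) =
          p * t + (g ((p - 1) * t) - g (-t)) := by ring
      rw [h5]
      refine (abs_add_le _ _).trans (add_le_add ?_ ?_)
      · rw [abs_mul, abs_of_pos hp0]
      · rw [abs_le]
        constructor <;> linarith
    refine h4.trans ?_
    have h6 : p * |t| ≤ √((a + η) * Θ) + 2 / ρ * Θ := by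
      have hs1 : 0 ≤ √((a + η) * Θ) := Real.sqrt_nonneg _
      rcases le_or_gt |t| ρ with h | h
      · have hpt : p * |t| ≤ 1 := by
          have h7 : p * |t| ≤ p * ρ := mul_le_mul_of_nonneg_left h hp0.le
          have h8 : 0 ≤ s * ρ := by positivity
          linarith
        have hst : s * |t| ≤ 1 := by
          have h7 : s * |t| ≤ s * ρ := mul_le_mul_of_nonneg_left h hs0.le
          have h8 : 0 ≤ p * ρ := by positivity
          linarith
        have k1 := g_ge_cub (x := p * t) (by
          rw [abs_mul, abs_of_pos hp0]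
          exact hpt)
        have k2 := g_ge_cub (x := -s * t) (by
          rw [abs_mul, abs_neg, abs_of_pos hs0]
          exact hst)
        rw [abs_mul, abs_of_pos hp0] at k1
        rw [abs_mul, abs_neg, abs_of_pos hs0] at k2
        have k3 : p * (p + s) / 2 * t ^ 2 * (1 - (p + s) * |t|) ≤ Θ := by
          have k4 : p / s * ((-s * t) ^ 2 / 2 - 2 / 9 * (s * |t|) ^ 3) ≤ p / s * g (-s * t) :=
            mul_le_mul_of_nonneg_left k2 (by positivity)
          have k6 : t ^ 2 = |t| ^ 2 := (sq_abs t).symm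
          have k7 : ((p * t) ^ 2 / 2 - 2 / 9 * (p * |t|) ^ 3) +
              p / s * ((-s * t) ^ 2 / 2 - 2 / 9 * (s * |t|) ^ 3) -
              p * (p + s) / 2 * t ^ 2 * (1 - (p + s) * |t|) =
              p * |t| ^ 3 * ((p + s) ^ 2 / 2 - 2 / 9 * (p ^ 2 + s ^ 2)) := by
            have k8 : (p * t) ^ 2 = p ^ 2 * |t| ^ 2 := by rw [mul_pow, k6]
            have k9 : (-s * t) ^ 2 = s ^ 2 * |t| ^ 2 := by rw [mul_pow, k6, neg_sq]
            rw [k8, k9, k6]
            field_simp
            ring
          have k8 : 0 ≤ p * |t| ^ 3 * ((p + s) ^ 2 / 2 - 2 / 9 * (p ^ 2 + s ^ 2)) := by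
            have : 0 ≤ (p + s) ^ 2 / 2 - 2 / 9 * (p ^ 2 + s ^ 2) := by nlinarith [mul_pos hp0 hs0]
            positivity
          rw [hT]
          linarith
        have k4 : (p * |t|) ^ 2 ≤ (a + η) * Θ := by
          have k5 : (p * |t|) ^ 2 = a * (p * (p + s) / 2 * t ^ 2) := by
            rw [mul_pow, sq_abs, ha]
            field_simp
          have k6 : a ≤ (a + η) * (1 - (p + s) * |t|) := by
            have k8 : (a + η) * ((p + s) * |t|) ≤ (a + η) * ((p + s) * ρ) :=
              mul_le_mul_of_nonneg_left (mul_le_mul_of_nonneg_left h (by positivity)) (by positivity)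
            linarith
          have k7 : 0 ≤ p * (p + s) / 2 * t ^ 2 := by positivity
          calc (p * |t|) ^ 2 = a * (p * (p + s) / 2 * t ^ 2) := k5
            _ ≤ (a + η) * (1 - (p + s) * |t|) * (p * (p + s) / 2 * t ^ 2) :=
              mul_le_mul_of_nonneg_right k6 k7
            _ = (a + η) * (p * (p + s) / 2 * t ^ 2 * (1 - (p + s) * |t|)) := by ring
            _ ≤ (a + η) * Θ := mul_le_mul_of_nonneg_left k3 (by positivity)
        have k5 : p * |t| ≤ √((a + η) * Θ) := Real.le_sqrt_of_sq_le k4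
        have k6 : 0 ≤ 2 / ρ * Θ := by positivity
        linarith
      · have k1 : p * |t| ≤ 2 / ρ * Θ := by
          rw [div_mul_eq_mul_div, le_div_iff₀ hρ0]
          calc p * |t| * ρ ≤ p * |t| * |t| := mul_le_mul_of_nonneg_left h.le (by positivity)
            _ = p * t ^ 2 := by rw [mul_assoc, ← sq, sq_abs]
            _ ≤ 2 * Θ := hT3
        linarith
    have h8 : K * Θ = 2 / ρ * Θ + 10 * (p * Θ) + 10 * (s * Θ) + 60 * Θ := by
      rw [hKdef]
      ring
    have h10 : 0 ≤ p * Θ := by positivity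
    rw [h8]
    linarith

end Pool.Agent.H457.BV
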