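import Pool.Agent.H798.BV.Stm3

set_option autoImplicit false

/-!
# Task B3-XPQ (helper798): first order expansion of `χ_p(a - x)`

By homogeneity it is enough to treat `‖x‖ = 1`; then `‖τ - e‖² = 1 + v`, `v = τ² - 2 τ Re e`, and
`(1 + v)^q = 1 + q v + O(v²)`, `q = (p - 2)/2`, `2 (Re e) e = e² + 1`.
-/

namespace Pool.Agent.H457.BV.XPQ

open Pool.Agent.H798.BV

lemma taylor1 (q : ℝ) : ∃ C : ℝ, 0 ≤ C ∧ ∀ v : ℝ, -(3 / 4) ≤ v → v ≤ 5 / 4 →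
    |(1 + v) ^ q - 1| ≤ C * |v| := by
  have hc : ContinuousOn (fun w : ℝ => q * (1 + w) ^ (q - 1)) (Set.Icc (-(3 / 4)) (5 / 4)) := by
    refine ContinuousOn.mul continuousOn_const ?_
    refine ContinuousOn.rpow_const (by fun_prop) ?_
    intro w hw
    left
    have := hw.1
    linarith
  obtain ⟨C, hC⟩ := isCompact_Icc.exists_bound_of_continuousOn hc
  refine ⟨max C 0, le_max_right _ _, fun v h1 h2 => ?_⟩
  have hd : ∀ w ∈ Set.Icc (-(3 / 4) : ℝ) (5 / 4), HasDerivWithinAt (fun w : ℝ => (1 + w) ^ q)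
      (q * (1 + w) ^ (q - 1)) (Set.Icc (-(3 / 4)) (5 / 4)) w := by
    intro w hw
    have h3 : (1 : ℝ) + w ≠ 0 := by
      have := hw.1
      linarith
    have h4 : HasDerivAt (fun w : ℝ => (1 + w) ^ q) (1 * q * (1 + w) ^ (q - 1)) w :=
      ((hasDerivAt_id w).const_add 1).rpow_const (Or.inl h3)
    rw [one_mul] at h4
    exact h4.hasDerivWithinAt
  have h5 := (convex_Icc (-(3 / 4) : ℝ) (5 / 4)).norm_image_sub_le_of_norm_hasDerivWithin_le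
    (C := max C 0) hd (fun w hw => (hC w hw).trans (le_max_left _ _)) (x := 0) (y := v)
    ⟨by norm_num, by norm_num⟩ ⟨h1, h2⟩
  simpa using h5

lemma taylor2 (q : ℝ) : ∃ C : ℝ, 0 ≤ C ∧ ∀ v : ℝ, -(3 / 4) ≤ v → v ≤ 5 / 4 →
    |(1 + v) ^ q - 1 - q * v| ≤ C * v ^ 2 := by
  obtain ⟨C, hC0, hC⟩ := taylor1 (q - 1)
  refine ⟨|q| * C, by positivity, fun v h1 h2 => ?_⟩
  have hd : ∀ w ∈ Set.uIcc 0 v, HasDerivWithinAt (fun w : ℝ => (1 + w) ^ q - 1 - q * w)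
      (q * ((1 + w) ^ (q - 1) - 1)) (Set.uIcc 0 v) w := by
    intro w hw
    rw [Set.mem_uIcc] at hw
    have h3 : (1 : ℝ) + w ≠ 0 := by
      rcases hw with hw | hw <;> linarith [hw.1]
    have h4 : HasDerivAt (fun w : ℝ => (1 + w) ^ q - 1 - q * w)
        (1 * q * (1 + w) ^ (q - 1) - q * 1) w :=
      ((((hasDerivAt_id w).const_add 1).rpow_const (Or.inl h3)).sub_const 1).sub
        ((hasDerivAt_id w).const_mul q)
    have h5 : 1 * q * (1 + w) ^ (q - 1) - q * 1 = q * ((1 + w) ^ (q - 1) - 1) := by ring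
    rw [h5] at h4
    exact h4.hasDerivWithinAt
  have h5 := (convex_uIcc 0 v).norm_image_sub_le_of_norm_hasDerivWithin_le hd
    (C := |q| * C * |v|) (fun w hw => ?_) (x := 0) (y := v) Set.left_mem_uIcc Set.right_mem_uIcc
  · have h6 : ((1 + v) ^ q - 1 - q * v) - ((1 + 0) ^ q - 1 - q * 0) = (1 + v) ^ q - 1 - q * v := by
      simp
    rw [h6, Real.norm_eq_abs, Real.norm_eq_abs, sub_zero] at h5
    calc _ ≤ |q| * C * |v| * |v| := h5
      _ = |q| * C * v ^ 2 := by rw [mul_assoc (|q| * C), ← sq, sq_abs]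
  · rw [Set.mem_uIcc] at hw
    have hwv : |w| ≤ |v| := by
      rcases hw with hw | hw
      · rw [abs_of_nonneg hw.1, abs_of_nonneg (hw.1.trans hw.2)]
        exact hw.2
      · rw [abs_of_nonpos hw.2, abs_of_nonpos (hw.1.trans hw.2)]
        linarith [hw.1]
    have h7 := hC w (by rcases hw with hw | hw <;> linarith [hw.1])
      (by rcases hw with hw | hw <;> linarith [hw.2])
    rw [Real.norm_eq_abs, abs_mul, mul_assoc]
    refine mul_le_mul_of_nonneg_left (h7.trans (mul_le_mul_of_nonneg_left hwv hC0)) (abs_nonneg _)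

lemma norm_rpow (p : ℝ) (z : ℂ) : ‖z‖ ^ (p - 2) = (‖z‖ ^ 2) ^ ((p - 2) / 2) := by
  rw [← Real.rpow_natCast ‖z‖ 2, ← Real.rpow_mul (norm_nonneg _)]
  congr 1
  push_cast
  ring

lemma unit_case (p : ℝ) : ∃ K : ℝ, 0 ≤ K ∧ ∀ (e : ℂ) (τ : ℝ), ‖e‖ = 1 → 0 ≤ τ → τ ≤ 1 / 2 →
    ‖chi p ((τ : ℂ) - e) + e - (τ : ℂ) * ((p / 2 : ℝ) + ((p - 2) / 2 : ℝ) * e ^ 2)‖ ≤
      K * τ ^ 2 := by
  obtain ⟨C, hC0, hC⟩ := taylor2 ((p - 2) / 2)
  refine ⟨4 * |(p - 2) / 2| + 14 * C, by positivity, fun e τ he h0 h1 => ?_⟩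
  have hq : p / 2 = 1 + (p - 2) / 2 := by ring
  rw [hq]
  set q := (p - 2) / 2 with hqdef
  have hn : e.re ^ 2 + e.im ^ 2 = 1 := by
    have h2 := Complex.sq_norm e
    rw [he, Complex.normSq_apply] at h2
    nlinarith
  have hc1 : -1 ≤ e.re := by nlinarith [sq_nonneg e.im]
  have hc2 : e.re ≤ 1 := by nlinarith [sq_nonneg e.im]
  obtain ⟨v, hv⟩ : ∃ v : ℝ, v = τ ^ 2 - 2 * τ * e.re := ⟨_, rfl⟩
  have hnorm : ‖(τ : ℂ) - e‖ ^ 2 = 1 + v := by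
    rw [Complex.sq_norm, Complex.normSq_apply, hv]
    simp only [Complex.sub_re, Complex.ofReal_re, Complex.sub_im, Complex.ofReal_im]
    nlinarith
  have hv1 : -(3 / 4) ≤ v := by rw [hv]; nlinarith
  have hv2 : v ≤ 5 / 4 := by rw [hv]; nlinarith
  have hv3 : |v| ≤ 3 * τ := by
    rw [hv, abs_le]
    constructor <;> nlinarith
  have hR := hC v hv1 hv2
  obtain ⟨R, hRd⟩ : ∃ R : ℝ, R = (1 + v) ^ q - 1 - q * v := ⟨_, rfl⟩
  rw [← hRd] at hR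
  have hpow : (1 + v) ^ q = 1 + q * v + R := by rw [hRd]; ring
  have hchi : chi p ((τ : ℂ) - e) = ((1 + q * v + R : ℝ) : ℂ) * ((τ : ℂ) - e) := by
    unfold chi
    rw [norm_rpow, hnorm, ← hqdef, hpow]
  have he2 : 2 * (e.re : ℂ) * e = e ^ 2 + 1 := by
    apply Complex.ext
    · simp [sq]
      nlinarith
    · simp [sq]
      ring
  have key : chi p ((τ : ℂ) - e) + e - (τ : ℂ) * ((1 + q : ℝ) + (q : ℝ) * e ^ 2) =
      (q * v * τ : ℝ) - (q * τ ^ 2 : ℝ) * e + (R : ℂ) * ((τ : ℂ) - e) := by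
    rw [hchi]
    have e3 : (v : ℂ) = (τ : ℂ) ^ 2 - 2 * τ * e.re := by rw [hv]; push_cast; ring
    push_cast
    have e4 : (v : ℂ) * e = (τ : ℂ) ^ 2 * e - τ * (e ^ 2 + 1) := by
      rw [e3, ← he2]
      ring
    linear_combination (-(q : ℂ)) * e4
  rw [key]
  have hv4 : v ^ 2 ≤ 9 * τ ^ 2 := by
    have : |v| ^ 2 ≤ (3 * τ) ^ 2 := pow_le_pow_left₀ (abs_nonneg _) hv3 2
    rw [sq_abs] at this
    linarith
  have n1 : ‖((q * v * τ : ℝ) : ℂ)‖ ≤ 3 * |q| * τ ^ 2 := by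
    rw [Complex.norm_real, Real.norm_eq_abs, abs_mul, abs_mul, abs_of_nonneg h0]
    calc |q| * |v| * τ ≤ |q| * (3 * τ) * τ :=
          mul_le_mul_of_nonneg_right (mul_le_mul_of_nonneg_left hv3 (abs_nonneg _)) h0
      _ = 3 * |q| * τ ^ 2 := by ring
  have n2 : ‖((q * τ ^ 2 : ℝ) : ℂ) * e‖ ≤ |q| * τ ^ 2 := by
    rw [norm_mul, he, mul_one, Complex.norm_real, Real.norm_eq_abs, abs_mul,
      abs_of_nonneg (sq_nonneg τ)]
  have n3 : ‖(R : ℂ) * ((τ : ℂ) - e)‖ ≤ 14 * C * τ ^ 2 := by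
    rw [norm_mul, Complex.norm_real, Real.norm_eq_abs]
    have h5 : ‖(τ : ℂ) - e‖ ≤ 3 / 2 := by
      refine (norm_sub_le _ _).trans ?_
      rw [he, Complex.norm_real, Real.norm_of_nonneg h0]
      linarith
    calc |R| * ‖(τ : ℂ) - e‖ ≤ (C * (9 * τ ^ 2)) * (3 / 2) :=
          mul_le_mul (hR.trans (mul_le_mul_of_nonneg_left hv4 hC0)) h5 (norm_nonneg _)
            (by positivity)
      _ ≤ 14 * C * τ ^ 2 := by nlinarith [mul_nonneg hC0 (sq_nonneg τ)]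
  calc _ ≤ ‖((q * v * τ : ℝ) : ℂ) - (q * τ ^ 2 : ℝ) * e‖ + ‖(R : ℂ) * ((τ : ℂ) - e)‖ :=
        norm_add_le _ _
    _ ≤ (‖((q * v * τ : ℝ) : ℂ)‖ + ‖((q * τ ^ 2 : ℝ) : ℂ) * e‖) + ‖(R : ℂ) * ((τ : ℂ) - e)‖ := by
        gcongr
        exact norm_sub_le _ _
    _ ≤ _ := by linarith

lemma chi_smul (p : ℝ) {r : ℝ} (hr : 0 < r) (z : ℂ) :
    chi p ((r : ℂ) * z) = ((r ^ (p - 1) : ℝ) : ℂ) * chi p z := by
  unfold chi
  rw [norm_mul, Complex.norm_real, Real.norm_of_nonneg hr.le,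
    Real.mul_rpow hr.le (norm_nonneg _)]
  have h1 : r ^ (p - 1) = r ^ (p - 2) * r := by
    rw [← Real.rpow_add_one hr.ne']
    congr 1
    ring
  rw [h1]
  push_cast
  ring

theorem _root_.Pool.Agent.H457.BV.t_XPQ : S_XPQ := by
  intro p hp
  obtain ⟨K, hK0, hK⟩ := unit_case p
  refine ⟨8 * K + 1, by positivity, fun a ha0 ha1 x hx => ?_⟩
  obtain ⟨r, hr⟩ : ∃ r : ℝ, r = ‖x‖ := ⟨_, rfl⟩
  rw [← hr] at hx ⊢
  have hr0 : 0 < r := by linarith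
  have hrc : (r : ℂ) ≠ 0 := by exact_mod_cast hr0.ne'
  obtain ⟨e, he⟩ : ∃ e : ℂ, e = x / (r : ℂ) := ⟨_, rfl⟩
  rw [← he]
  have hxe : x = (r : ℂ) * e := by rw [he]; field_simp
  have hen : ‖e‖ = 1 := by
    rw [he, norm_div, Complex.norm_real, Real.norm_of_nonneg hr0.le, ← hr, div_self hr0.ne']
  obtain ⟨τ, hτ⟩ : ∃ τ : ℝ, τ = a / r := ⟨_, rfl⟩
  have hτ0 : 0 ≤ τ := by rw [hτ]; positivity
  have hτ1 : τ ≤ 1 / 2 := by
    rw [hτ, div_le_iff₀ hr0]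
    linarith
  have haτ : a = r * τ := by rw [hτ]; field_simp
  have h1 := hK e τ hen hτ0 hτ1
  have hpw : r ^ (p - 1) = r ^ (p - 2) * r := by
    rw [← Real.rpow_add_one hr0.ne']
    congr 1
    ring
  have hp0 : 0 ≤ r ^ (p - 1) := Real.rpow_nonneg hr0.le _
  have c1 : chi p ((a : ℂ) - x) = ((r ^ (p - 1) : ℝ) : ℂ) * chi p ((τ : ℂ) - e) := by
    rw [← chi_smul p hr0, haτ, hxe]
    congr 1
    push_cast
    ring
  have c2 : chi p x = ((r ^ (p - 1) : ℝ) : ℂ) * e := by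
    have : chi p e = e := by
      unfold chi
      rw [hen, Real.one_rpow]
      simp
    rw [hxe, chi_smul p hr0, this]
  have key : chi p ((a : ℂ) - x) + chi p x
        - (a : ℂ) * (r ^ (p - 2) : ℝ) * ((p / 2 : ℝ) + ((p - 2) / 2 : ℝ) * e ^ 2) =
      ((r ^ (p - 1) : ℝ) : ℂ) *
        (chi p ((τ : ℂ) - e) + e - (τ : ℂ) * ((p / 2 : ℝ) + ((p - 2) / 2 : ℝ) * e ^ 2)) := by
    rw [c1, c2, haτ, hpw]
    push_cast
    ring
  rw [key, norm_mul, Complex.norm_real, Real.norm_of_nonneg hp0]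
  have hr3 : r ^ (p - 1) * τ ^ 2 ≤ 8 * (a ^ 2 * r ^ p) := by
    have h2 : r ^ p = r ^ (p - 1) * r := by
      rw [← Real.rpow_add_one hr0.ne']
      congr 1
      ring
    rw [h2, haτ]
    have h3 : 1 ≤ 8 * r ^ 3 := by
      have : (1 / 2 : ℝ) ^ 3 ≤ r ^ 3 := pow_le_pow_left₀ (by norm_num) hx 3
      linarith
    have h4 : 0 ≤ r ^ (p - 1) * τ ^ 2 := by positivity
    calc r ^ (p - 1) * τ ^ 2 = r ^ (p - 1) * τ ^ 2 * 1 := by ring
      _ ≤ r ^ (p - 1) * τ ^ 2 * (8 * r ^ 3) := mul_le_mul_of_nonneg_left h3 h4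
      _ = _ := by ring
  have hrp : 0 ≤ r ^ p := Real.rpow_nonneg hr0.le _
  calc _ ≤ r ^ (p - 1) * (K * τ ^ 2) := mul_le_mul_of_nonneg_left h1 hp0
    _ = K * (r ^ (p - 1) * τ ^ 2) := by ring
    _ ≤ K * (8 * (a ^ 2 * r ^ p)) := mul_le_mul_of_nonneg_left hr3 hK0
    _ ≤ (8 * K + 1) * (a ^ 2 * (1 + r ^ p)) := by
        have h5 : 0 ≤ a ^ 2 := sq_nonneg a
        have h6 : 0 ≤ a ^ 2 * r ^ p := by positivity
        have h7 : 0 ≤ K * a ^ 2 := by positivity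
        nlinarith

end Pool.Agent.H457.BV.XPQ
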